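import Pool.Agent.U582.OB.Gen
import Pool.Agent.U582.OB.Fib
import Pool.Agent.NH29.GK.Gnz
import Pool.Agent.NH29.GN.Fin3

/-!
MP_8d161d_ag, Q1: the Green-Griffiths-Lang conjecture for the projective varieties with a generically
finite morphism to a projective variety `V` which is highly ramified over at least `dim V + 2` general
hypersurface sections of any degrees (at most two of them hyperplane sections if there are `dim V + 2`).

Let `k` be a subfield of `ℂ`, let `V` be a closed subset of `ℙ ^ M` of dimension at most `n`, defined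
over `k`, let `q ≥ n + 2`, and let `d_1, …, d_q` be positive integers, such that at most `2 (q - n - 1)`
of them are equal to `1`, or such that for `1 ≤ m ≤ n` the sum of any `q - 1 - m` of them is at least
`n - m + n / m`.

THEOREM. There is a nonzero polynomial `Φ` over `k` in the coefficients of `q` forms of degrees
`d_1, …, d_q` in `M + 1` variables such that for every compact set `𝒦` of families of complex forms
`F = (F_1, …, F_q)` with `Φ (F) ≠ 0` there are `A` and `D` with the following properties for all `F` in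
`𝒦`.

(1) For every holomorphic map `f` from the unit disc to `V` which meets each of the hypersurfaces
`F_b = 0` only with multiplicity at least `A` (the disc may be contained in `F_b = 0`), the
Fubini-Study norm of the derivative of `f` at `0` is at most `D`. Every entire curve in `V` with this
property is constant. (So the orbifold `(V, ∑ (1 - 1 / A) (F_b = 0))` is hyperbolic.)

(2) Let `X` be a closed subset of `ℙ ^ N × ℙ ^ M` over `V`, such that all holomorphic maps from open
subsets of `ℂ` to `X` meet the hypersurfaces `F_b = 0` only with multiplicity at least `A`. Then all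
entire curves in `X` are contained in fibres of the projection `X → V`. If the fibres are finite, `X`
contains no entire curves. If `X` is irreducible and generically finite over its image in `V`, then all
entire curves in `X` are contained in one proper closed subset of `X`.

(3) Example: for `m ≥ A`, the closed subset of `ℙ ^ (M + q)` with the equations
`z_b ^ (m d_b) = F_b (y_0 ^ m, …, y_M ^ m)` and `H (y_0 ^ m, …, y_M ^ m) = 0` for the equations `H` of
`V` contains no entire curves.

The proof: by Borel's theorem, an entire curve in `V` such that each `F_b` is on it identically zero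
or without zeros gives a point over the field of meromorphic functions for which certain quotients of
forms satisfy only trivial relations; there are no such points for general forms
(`Pool.Agent.NH29.GK.no_bad`). If the derivatives of the discs with multiplicities at least `A` were
not bounded for `A → ∞`, by the theorem of Hurwitz with multiplicities a limit of reparametrized discs
for families `F_j → F` would be such a curve.
-/

set_option autoImplicit false

namespace Pool.Agent.Results.MP_8d161d_ag.CoversOverGeneralDivisors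

open MvPolynomial Metric
open Pool.Agent.NH31.KR (fubini)
open Pool.Agent.W602.Cov.R (BiSet)
open Pool.Agent.NH29.GK (form)
open Pool.Agent.NH29.GN (Idx)
open Pool.Agent.U582.OB (GenFin)

variable {k : Type} [Field k] [Algebra k ℂ] {M q : ℕ}

/-- The closed subset of `ℙ ^ M` with the equations `V` has dimension at most `n`: there are `n + 1`
linear forms over `k` without common zeros on it. -/
def DimLE (V : Set (MvPolynomial (Fin (M + 1)) k)) (n : ℕ) : Prop :=
  ∃ ℓ : Fin (n + 1) → MvPolynomial (Fin (M + 1)) k, (∀ j, (ℓ j).IsHomogeneous 1) ∧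
    ∀ y : Fin (M + 1) → ℂ, (∀ H ∈ V, aeval y H = 0) → (∀ j, aeval y (ℓ j) = 0) → y = 0

/-- The condition on the degrees. -/
def Degrees (n : ℕ) (d : Fin q → ℕ) : Prop :=
  (∀ i, 0 < d i) ∧
    ((Finset.univ.filter fun i => d i = 1).card ≤ 2 * (q - n - 1) ∨
      ∀ m, 1 ≤ m → m ≤ n → ∀ B : Finset (Fin q), B.card = q - 1 - m →
        n + m * (n - m) ≤ m * ∑ b ∈ B, d b)

/-- `f` gives, in homogeneous coordinates, a holomorphic map from `U` to `V`, which meets each of the
hypersurfaces `F b = 0` only with multiplicity at least `A` (possibly infinite). -/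
structure OrbifoldMap (V : Set (MvPolynomial (Fin (M + 1)) k))
    (F : Fin q → MvPolynomial (Fin (M + 1)) ℂ) (A : ℕ) (U : Set ℂ) (f : ℂ → Fin (M + 1) → ℂ) :
    Prop where
  diff : DifferentiableOn ℂ f U
  ne : ∀ z ∈ U, f z ≠ 0
  mem : ∀ z ∈ U, ∀ H ∈ V, aeval (f z) H = 0
  mult : ∀ b, ∀ z ∈ U, eval (f z) (F b) = 0 →
    (A : ℕ∞) ≤ analyticOrderAt (fun w => eval (f w) (F b)) z

/-- `X`, a closed subset of `ℙ ^ N × ℙ ^ M`, lies over `V`, and all holomorphic maps `(u, v)` from
open subsets of `ℂ` to `X` meet the hypersurfaces `F b = 0` only with multiplicity at least `A`. -/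
structure RamifiedOver {N : ℕ} (X : BiSet N M) (V : Set (MvPolynomial (Fin (M + 1)) k))
    (F : Fin q → MvPolynomial (Fin (M + 1)) ℂ) (A : ℕ) : Prop where
  onV : ∀ (a : Fin (N + 1) → ℂ) (b : Fin (M + 1) → ℂ), X.Mem a b → ∀ H ∈ V, aeval b H = 0
  ram : ∀ (U : Set ℂ), IsOpen U → ∀ (u : ℂ → Fin (N + 1) → ℂ) (v : ℂ → Fin (M + 1) → ℂ),
    DifferentiableOn ℂ u U → DifferentiableOn ℂ v U → (∀ z ∈ U, X.Mem (u z) (v z)) →
    ∀ b, ∀ z ∈ U, eval (v z) (F b) = 0 →
      (A : ℕ∞) ≤ analyticOrderAt (fun w => eval (v w) (F b)) z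

/-- All fibres of the projection of `X` to `ℙ ^ M` are finite. -/
def FiniteFibres {N : ℕ} (X : BiSet N M) : Prop :=
  ∀ b : Fin (M + 1) → ℂ, b ≠ 0 → ∃ S : Finset (Fin (N + 1) → ℂ), ∀ a, X.Mem a b →
    ∃ s ∈ S, ∃ c : ℂ, a = c • s

/-- `(y, w)` gives a holomorphic map from `ℂ` to the closed subset of `ℙ ^ (M + q)` with the equations
`w_b ^ (m d_b) = F_b (y_0 ^ m, …, y_M ^ m)` and `H (y_0 ^ m, …, y_M ^ m) = 0` for `H ∈ V`. -/
structure FermatCurve (V : Set (MvPolynomial (Fin (M + 1)) k))
    (F : Fin q → MvPolynomial (Fin (M + 1)) ℂ) (d : Fin q → ℕ) (m : ℕ)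
    (y : ℂ → Fin (M + 1) → ℂ) (w : ℂ → Fin q → ℂ) : Prop where
  diffy : Differentiable ℂ y
  diffw : Differentiable ℂ w
  ne : ∀ z, y z ≠ 0 ∨ w z ≠ 0
  mem : ∀ z, ∀ H ∈ V, aeval (fun i => y z i ^ m) H = 0
  eq : ∀ z b, w z b ^ (m * d b) = eval (fun i => y z i ^ m) (F b)

/-- The conclusion of the theorem for one family `F`. -/
def Conclusion (V : Set (MvPolynomial (Fin (M + 1)) k)) (F : Fin q → MvPolynomial (Fin (M + 1)) ℂ)
    (d : Fin q → ℕ) (A : ℕ) (D : ℝ) : Prop :=
  -- (1) discs and entire curves in `V` with multiplicities at least `A`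
  (∀ f, OrbifoldMap V F A (ball 0 1) f → fubini (f 0) (deriv f 0) ≤ D) ∧
  (∀ f, OrbifoldMap V F A Set.univ f → ∀ z, ∃ c : ℂ, f z = c • f 0) ∧
  -- (2) entire curves in the varieties `X` over `V`, ramified to order at least `A` over the `F b = 0`
  (∀ (N : ℕ) (X : BiSet N M), RamifiedOver X V F A →
    (∀ u v, X.EntireCurve u v → ∀ z z', ∃ c : ℂ, v z' = c • v z) ∧
    (FiniteFibres X → ∀ u v, ¬ X.EntireCurve u v) ∧
    ∀ (K : Type) [Field K] [Algebra ℂ K] (a : Fin (N + 1) → K) (b : Fin (M + 1) → K),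
      X.FunctionField K a b → GenFin K b → X.PseudoBrody) ∧
  -- (3) explicit examples
  ∀ m, A ≤ m → ∀ y w, FermatCurve V F d m y w → ∀ z, ∃ c : ℂ, y z = c • y 0 ∧ w z = c • w 0

section Proof

open Pool.Agent.NH29.GK Pool.Agent.U582.OB
open Pool.Agent.NH29.GN (NoZero Num2)

/-- an entire function with a constant power is constant -/
theorem const_of_pow {g : ℂ → ℂ} (hg : Differentiable ℂ g) {m : ℕ} (hm : m ≠ 0)
    (h : ∀ z, g z ^ m = g 0 ^ m) (z : ℂ) : g z = g 0 := by
  by_cases h0 : g 0 = 0
  · have h1 := h z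
    rw [h0, zero_pow hm] at h1
    rw [h0]
    exact pow_eq_zero_iff hm |>.1 h1
  · have hne : ∀ w, g w ≠ 0 := by
      intro w hw
      have h1 := h w
      rw [hw, zero_pow hm] at h1
      exact h0 (pow_eq_zero_iff hm |>.1 h1.symm)
    refine is_const_of_deriv_eq_zero hg (fun w => ?_) z 0
    have h1 : deriv (fun z => g z ^ m) w = 0 := by
      have h2 : (fun z => g z ^ m) = fun _ => g 0 ^ m := funext h
      rw [h2, deriv_const]
    rw [((hg w).hasDerivAt.fun_pow m).deriv] at h1
    have h3 := hne w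
    rcases mul_eq_zero.1 h1 with h4 | h4
    · exfalso
      rcases mul_eq_zero.1 h4 with h5 | h5
      · exact hm (by exact_mod_cast h5)
      · exact pow_ne_zero _ h3 h5
    · exact h4

theorem conclusion {V : Set (MvPolynomial (Fin (M + 1)) k)} {d : Fin q → ℕ} {t : Idx M d → ℂ}
    (hd : ∀ i, 0 < d i) {A : ℕ} (hA : 0 < A) {D : ℝ}
    (h : ∀ f : ℂ → Fin (M + 1) → ℂ, DifferentiableOn ℂ f (ball 0 1) →
      (∀ z ∈ ball (0 : ℂ) 1, f z ≠ 0) →
      (∀ z ∈ ball (0 : ℂ) 1, ∀ H ∈ V, aeval (f z) H = 0) →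
      (∀ b, ∀ z ∈ ball (0 : ℂ) 1, eval (f z) (form t b) = 0 →
        (A : ℕ∞) ≤ analyticOrderAt (fun w => eval (f w) (form t b)) z) →
      ‖fderiv ℝ (fun z => Phi (f z)) 0‖ ≤ D ∧ fubini (f 0) (deriv f 0) ≤ 2 * (M + 1) ^ 2 * D) :
    Conclusion V (form t) d A (2 * (M + 1) ^ 2 * D) := by
  classical
  have hent : ∀ f, OrbifoldMap V (form t) A Set.univ f → ∀ z, ∃ c : ℂ, c ≠ 0 ∧ f z = c • f 0 := by
    intro f hf
    exact entire_bound (V := V) (t := t) (A := A) (D := D)
      (fun g h1 h2 h3 h4 => (h g h1 h2 h3 h4).1) (differentiableOn_univ.1 hf.diff)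
      (fun z => hf.ne z (Set.mem_univ z)) (fun z => hf.mem z (Set.mem_univ z))
      (fun b z => hf.mult b z (Set.mem_univ z))
  refine ⟨fun f hf => (h f hf.diff hf.ne hf.mem hf.mult).2, fun f hf z => ?_, ?_, ?_⟩
  · obtain ⟨c, -, hc⟩ := hent f hf z
    exact ⟨c, hc⟩
  · intro N X hX
    have hv : ∀ u v, X.EntireCurve u v → ∀ z z', ∃ c : ℂ, v z' = c • v z := by
      intro u v hC
      have hu1 : Differentiable ℂ u := differentiable_pi.2 hC.diffu
      have hv1 : Differentiable ℂ v := differentiable_pi.2 hC.diffv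
      have ho : OrbifoldMap V (form t) A Set.univ v :=
        ⟨hv1.differentiableOn, fun z _ => (hC.mem z).2.1, fun z _ => hX.onV _ _ (hC.mem z),
          fun b z hz => hX.ram Set.univ isOpen_univ u v hu1.differentiableOn hv1.differentiableOn
            (fun z _ => hC.mem z) b z hz⟩
      intro z z'
      obtain ⟨c, hc, h1⟩ := hent v ho z
      obtain ⟨c', -, h2⟩ := hent v ho z'
      refine ⟨c' / c, ?_⟩
      rw [h1, h2, smul_smul, div_mul_cancel₀ _ hc]
    exact ⟨hv, fun hfin => no_curve hv hfin, fun K _ _ a b hF hG => pseudoBrody hF hG hv⟩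
  · intro m hAm y w hC
    have hm : m ≠ 0 := by omega
    have hy0 : ∀ z, y z ≠ 0 := by
      intro z hz
      rcases hC.ne z with h1 | h1
      · exact h1 hz
      · apply h1
        funext b
        have h2 := hC.eq z b
        rw [hz] at h2
        have h3 : eval (fun i : Fin (M + 1) => (0 : Fin (M + 1) → ℂ) i ^ m) (form t b) = 0 := by
          have h4 : (fun i : Fin (M + 1) => (0 : Fin (M + 1) → ℂ) i ^ m) = (0 : ℂ) • (0 : Fin (M + 1) → ℂ) := by
            funext i
            simp [hm]
          rw [h4, eval_smul_form (form_hom t b), zero_pow (hd b).ne', zero_mul]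
        rw [h3] at h2
        have h5 := (pow_eq_zero_iff (Nat.mul_ne_zero hm (hd b).ne')).1 h2
        exact h5
    have hyd : ∀ i, Differentiable ℂ fun z => y z i := differentiable_pi.1 hC.diffy
    have hwd : ∀ b, Differentiable ℂ fun z => w z b := differentiable_pi.1 hC.diffw
    have ho : OrbifoldMap V (form t) A Set.univ fun z i => y z i ^ m := by
      refine ⟨?_, ?_, fun z _ => hC.mem z, ?_⟩
      · refine Differentiable.differentiableOn ?_
        exact differentiable_pi.2 fun i => (hyd i).pow m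
      · intro z _ h1
        apply hy0 z
        funext i
        have h2 := congrFun h1 i
        exact (pow_eq_zero_iff hm).1 h2
      · intro b z _ hz
        have h1 : (fun w' => eval (fun i => y w' i ^ m) (form t b)) =
            (fun z => w z b) ^ (m * d b) := by
          funext w'
          rw [Pi.pow_apply, hC.eq w' b]
        have hw : AnalyticAt ℂ (fun z => w z b) z := (hwd b).analyticAt z
        rw [h1, analyticOrderAt_pow hw]
        have h2 : w z b = 0 := by
          have h3 := hC.eq z b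
          rw [hz] at h3
          exact (pow_eq_zero_iff (Nat.mul_ne_zero hm (hd b).ne')).1 h3
        have h3 : (1 : ℕ∞) ≤ analyticOrderAt (fun z => w z b) z := by
          rw [Order.one_le_iff_ne_zero, ne_eq, hw.analyticOrderAt_eq_zero]
          exact fun h4 => h4 h2
        have h4 : A ≤ m * d b := hAm.trans (Nat.le_mul_of_pos_right m (hd b))
        calc (A : ℕ∞) ≤ ((m * d b : ℕ) : ℕ∞) := by exact_mod_cast h4
          _ = (m * d b : ℕ) • (1 : ℕ∞) := by simp
          _ ≤ (m * d b : ℕ) • analyticOrderAt (fun z => w z b) z := nsmul_le_nsmul_right h3 _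
    have hcon := hent _ ho
    obtain ⟨i, hi⟩ : ∃ i, y 0 i ≠ 0 := by
      by_contra hcon
      push Not at hcon
      exact hy0 0 (funext hcon)
    have hyi : ∀ z, y z i ≠ 0 := by
      intro z hz
      obtain ⟨c, hc, h1⟩ := hcon z
      have h2 := congrFun h1 i
      simp only [Pi.smul_apply, smul_eq_mul] at h2
      rw [hz, zero_pow hm] at h2
      exact mul_ne_zero hc (pow_ne_zero m hi) h2.symm
    -- the quotients are constant
    have hq1 : ∀ j z, y z j / y z i = y 0 j / y 0 i := by
      intro j z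
      refine const_of_pow (g := fun z => y z j / y z i) ((hyd j).div (hyd i) hyi) hm
        (fun z => ?_) z
      obtain ⟨c, hc, h1⟩ := hcon z
      have h2 := congrFun h1 i
      have h3 := congrFun h1 j
      simp only [Pi.smul_apply, smul_eq_mul] at h2 h3
      rw [div_pow, div_pow, h2, h3, mul_div_mul_left _ _ hc]
    have hq2 : ∀ b z, w z b / y z i = w 0 b / y 0 i := by
      intro b z
      refine const_of_pow (g := fun z => w z b / y z i) ((hwd b).div (hyd i) hyi)
        (Nat.mul_ne_zero hm (hd b).ne') (fun z => ?_) z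
      obtain ⟨c, hc, h1⟩ := hcon z
      have h2 := congrFun h1 i
      simp only [Pi.smul_apply, smul_eq_mul] at h2
      have h3 := hC.eq z b
      have h4 := hC.eq 0 b
      rw [h1, eval_smul_form (form_hom t b), ← h4] at h3
      rw [div_pow, div_pow, h3, pow_mul (y z i), h2, mul_pow, ← pow_mul,
        mul_div_mul_left _ _ (pow_ne_zero _ hc)]
    intro z
    refine ⟨y z i / y 0 i, ?_, ?_⟩
    · funext j
      have h1 := hq1 j z
      have h2 := hyi z
      rw [Pi.smul_apply, smul_eq_mul]
      field_simp at h1 ⊢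
      linear_combination h1
    · funext b
      have h1 := hq2 b z
      have h2 := hyi z
      rw [Pi.smul_apply, smul_eq_mul]
      field_simp at h1 ⊢
      linear_combination h1

end Proof

theorem result {k : Type} [Field k] [Algebra k ℂ] {M n q : ℕ} (hq : n + 2 ≤ q)
    -- `V` is closed in `ℙ ^ M`, of dimension at most `n`
    (V : Set (MvPolynomial (Fin (M + 1)) k)) (hV : ∀ H ∈ V, ∃ e, H.IsHomogeneous e) (hn : DimLE V n)
    (d : Fin q → ℕ) (hd : Degrees n d) :
    ∃ Φ : MvPolynomial (Idx M d) k, Φ ≠ 0 ∧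
      -- for the families of forms with coefficients `t` in a compact subset of `Φ ≠ 0`
      ∀ 𝒦 : Set (Idx M d → ℂ), IsCompact 𝒦 → (∀ t ∈ 𝒦, aeval t Φ ≠ 0) →
        ∃ (A : ℕ) (D : ℝ), 0 < A ∧ ∀ t ∈ 𝒦, Conclusion V (form t) d A D := by
  classical
  obtain ⟨hd0, hd⟩ := hd
  obtain ⟨ℓ, hℓ, hℓ0⟩ := hn
  have hk : CharZero k := (algebraMap k ℂ).charZero
  have hN : Pool.Agent.NH29.GN.NoZero V ℓ :=
    Pool.Agent.NH29.GN.Fn.noZero_of_points (K := ℂ) hℓ0
  have hNum : ∀ C : Finset (Fin q), C ≠ Finset.univ → Pool.Agent.NH29.GN.Num2 n d C := by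
    rcases hd with hd | hd
    · exact Pool.Agent.NH29.GN.Fn.num_of_few hd0 hq (by omega)
    · exact Pool.Agent.NH29.GN.Fn.num_of_sum hq fun m h1 h2 B hB => hd m h1 h2 B (by omega)
  obtain ⟨Φ₂, hΦ₂, h2⟩ := Pool.Agent.NH29.GK.no_bad hV hℓ hN (by omega) hd0 hNum
  obtain ⟨Φ₃, hΦ₃, h3⟩ := Pool.Agent.NH29.GK.gnz k M n q V hV ℓ hℓ hN (by omega) d hd0
  refine ⟨Φ₂ * Φ₃, mul_ne_zero hΦ₂ hΦ₃, fun 𝒦 h𝒦 h𝒦Φ => ?_⟩
  have e2 : ∀ t ∈ 𝒦, aeval t Φ₂ ≠ 0 := fun t ht => by
    have h4 := h𝒦Φ t ht
    rw [map_mul] at h4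
    exact left_ne_zero_of_mul h4
  have e3 : ∀ t ∈ 𝒦, aeval t Φ₃ ≠ 0 := fun t ht => by
    have h4 := h𝒦Φ t ht
    rw [map_mul] at h4
    exact right_ne_zero_of_mul h4
  obtain ⟨A, D, hA, hD, h⟩ := Pool.Agent.U582.OB.disc_bound hV h𝒦
    (fun t ht => h2 t (e2 t ht)) (fun t ht y hy1 hy2 => h3 ℂ t (e3 t ht) y hy1 fun i => by
      rw [Pool.Agent.NH29.GK.eval_form]
      exact hy2 i)
  exact ⟨A, 2 * (M + 1) ^ 2 * D, hA, fun t ht => conclusion hd0 hA (h t ht)⟩

end Pool.Agent.Results.MP_8d161d_ag.CoversOverGeneralDivisors
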