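import Mathlib
import Pool.Agent.U178.AK.Modulo
import Pool.Agent.U178.GG.Alg
import Pool.Agent.U178.GG.Cov
import Pool.Agent.Y377.IL.AllC

/-!
# Pseudo-Kobayashi hyperbolicity for maps of bounded complexity

Let `X` be the complement of the hypersurface `Q = 0` in a projective variety, with arbitrary
singularities (`X` is projective if `Q = 1`), and `Z` a closed subset of the projective space. The
variety `X` is *hyperbolic modulo `Z`* for a class of holomorphic maps from domains in the complex
plane to `X` if the infinitesimal Kobayashi pseudometric of `X`, defined with the maps in this class,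
is bounded below by a positive multiple of the Fubini-Study metric on each compact subset of `X` which
does not meet `Z`. We consider the maps of complexity at most `(s, r, e, δ)`: on some nonempty open
set they have homogeneous coordinates which are polynomials in `z`, `1 / q(z)` and the solutions of
`s` successive linear systems `y_l' = A_l y_l`, of size `r`, where the entries of `A_l` are
polynomials in `z`, `1 / q(z)` and the entries of `y_1, ..., y_{l-1}`.

Which closed sets `Z` have this property is decided by the images of the multiplicative group in `X`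
(by the rational curves, if `X` is projective) of a degree which is bounded in terms of `n`, the
complexity and the degrees of the equations. Hence an irreducible `X` is pseudo-Kobayashi hyperbolic
for the maps of bounded complexity if and only if it is not covered by images of the multiplicative
group, and this holds if `X` is of general type, of log general type, or pseudo-Brody hyperbolic.

Proof. By the library `Pool.Agent.V1153.UG` the maps of bounded complexity which are not contained in
`Z` are given by algebraic functions of bounded degree. A sequence of such maps, with centres in a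
compact set and unbounded derivatives, is rescaled at the centres; the homogeneous coordinates,
suitably chosen, converge to polynomials, since they satisfy algebraic equations of bounded degree. If
the limit map is constant (this may happen, as the derivatives are not maximal at the centres) then
the limit of the coordinates has zeros, and a second rescaling, at the zeros, gives a nonconstant
rational curve through the limit of the centres.
-/

set_option autoImplicit false

namespace Pool.Agent.Results.MP_8d161d_ag.PseudoKobayashi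

open MvPolynomial Metric Set
open Pool.Agent.V1153.UG (IterSys Vx pev vec before Curve GmBdd Bdd GmThin EntireThin ArcThin VanGm
  six)
open Pool.Agent.U178.AK (HolMapP KobayashiModulo hyp_family hyp_of_arcs ent_of_hyp gm_of_ent NP)
open Pool.Agent.W602.GT (GeneralType)
open Pool.Agent.TH143.GT (FunField)

variable {n : ℕ}

/-- A holomorphic map, with the homogeneous coordinates `f` without common zeros, from the domain
`U` in the complex plane to `X`, the complement of `Q = 0` in the projective variety given by the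
forms in the ideal `I`. -/
structure HolMap (I : Ideal (MvPolynomial (Fin (n + 1)) ℂ)) (Q : MvPolynomial (Fin (n + 1)) ℂ)
    (U : Set ℂ) (f : ℂ → Fin (n + 1) → ℂ) : Prop where
  opn : IsOpen U
  con : IsPreconnected U
  diff : DifferentiableOn ℂ f U
  ne : ∀ z ∈ U, f z ≠ 0
  mem : ∀ z ∈ U, ∀ F ∈ I, (∃ m, F.IsHomogeneous m) → eval (f z) F = 0
  off : ∀ z ∈ U, eval (f z) Q ≠ 0

/-- the holomorphic map from the complex plane with the homogeneous coordinates `f` is not constant -/
def Nonconstant (f : ℂ → Fin (n + 1) → ℂ) : Prop := ∃ z w j k, f z j * f w k ≠ f z k * f w j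

/-- The map `f` with the domain `U` to the complement of `Q = 0` is of complexity at most
`(s, r, e, δ)`: on some nonempty open subset of `U` it has homogeneous coordinates `h_j = g f_j` such
that the `h_j` and `1 / Q(h)` are polynomials of degree at most `e` in each of the variables `z`,
`1 / q(z)` and the entries of `y_1, ..., y_s` as in `IterSys`. -/
def Complexity (Q : MvPolynomial (Fin (n + 1)) ℂ) (s r e δ : ℕ) (U : Set ℂ)
    (f : ℂ → Fin (n + 1) → ℂ) : Prop :=
  ∃ (V : Set ℂ) (q : Polynomial ℂ) (y : Fin s → Fin r → ℂ → ℂ) (g : ℂ → ℂ), IsOpen V ∧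
    V.Nonempty ∧ V ⊆ U ∧ IterSys s r e δ V q y ∧ (∀ z ∈ V, g z ≠ 0) ∧
    (∀ j, ∃ c : (Vx s r → Fin (e + 1)) → ℂ, ∀ z ∈ V,
      g z * f z j = pev c (vec z (q.eval z)⁻¹ fun l a => y l a z)) ∧
    ∃ c : (Vx s r → Fin (e + 1)) → ℂ, ∀ z ∈ V,
      pev c (vec z (q.eval z)⁻¹ fun l a => y l a z) * eval (fun j => g z * f z j) Q = 1

/-- Let `P` be a class of maps from subsets of the complex plane, and `Z` the closed subset of the
projective space given by the forms in `𝒵`. The variety `X` is hyperbolic modulo `Z` for these maps: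
for each compact subset `K` of the cone over the complement of `Z` and of `Q = 0` there is `C` such
that for all holomorphic maps `f` in this class from a domain `U` to `X`, the derivative of `f` at `a`,
in the Fubini-Study metric, is at most `C / R` if the disc with the centre `a` and the radius `R` is
in `U` and the point `f(a)` is in `K`. -/
def HyperbolicModulo (I : Ideal (MvPolynomial (Fin (n + 1)) ℂ)) (Q : MvPolynomial (Fin (n + 1)) ℂ)
    (𝒵 : Set (MvPolynomial (Fin (n + 1)) ℂ)) (P : Set ℂ → (ℂ → Fin (n + 1) → ℂ) → Prop) : Prop :=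
  ∀ K : Set (Fin (n + 1) → ℂ), IsCompact K →
    (∀ x ∈ K, x ≠ 0 ∧ eval x Q ≠ 0 ∧ ∃ G ∈ 𝒵, eval x G ≠ 0) →
      ∃ C : ℝ, ∀ (U : Set ℂ) (f : ℂ → Fin (n + 1) → ℂ), HolMap I Q U f → P U f →
        ∀ (a : ℂ) (R : ℝ), 0 < R → ball a R ⊆ U → (∃ c : ℂ, ∃ x ∈ K, f a = c • x) →
          R * Pool.Agent.NH31.KR.fubini (f a) (deriv f a) ≤ C

/-- `t ↦ P(t)`, given by polynomials of degree at most `N`, is a nonconstant morphism from the
multiplicative group to `X` (the polynomials may have common zeros, and the polynomial `Q(P)` has no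
zeros apart from `0`). If `Q = 1` this is a rational curve in the projective variety `X`. -/
structure GmCurve (I : Ideal (MvPolynomial (Fin (n + 1)) ℂ)) (Q : MvPolynomial (Fin (n + 1)) ℂ)
    (N : ℕ) (P : Fin (n + 1) → Polynomial ℂ) : Prop where
  deg : ∀ j, (P j).natDegree ≤ N
  mem : ∀ F ∈ I, (∃ m, F.IsHomogeneous m) → aeval P F = 0
  off : ∃ (c : ℂ) (k : ℕ), c ≠ 0 ∧ aeval P Q = Polynomial.C c * Polynomial.X ^ k
  nc : ∃ s t j k, (P j).eval s * (P k).eval t ≠ (P k).eval s * (P j).eval t

/-- `X` is covered by images of the multiplicative group (if `Q = 1`: by rational curves): there is a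
dominant map to `X` from the product of the multiplicative group and some variety (with a function
field contained in `L`), which is not constant along the multiplicative group; it is given by the
polynomials `P` over `L`. -/
def GmCovered (I : Ideal (MvPolynomial (Fin (n + 1)) ℂ)) (Q : MvPolynomial (Fin (n + 1)) ℂ) : Prop :=
  ∃ (L : Type) (_ : Field L) (_ : Algebra ℂ L) (P : Fin (n + 1) → Polynomial L),
    (∀ F ∈ I, (∃ m, F.IsHomogeneous m) → aeval P F = 0) ∧
    (∃ (c : L) (k : ℕ), c ≠ 0 ∧ aeval P Q = Polynomial.C c * Polynomial.X ^ k) ∧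
    (∀ G : MvPolynomial (Fin (n + 1)) ℂ, (∃ m, G.IsHomogeneous m) → G ∉ I → aeval P G ≠ 0) ∧
    ∃ j k, Polynomial.derivative (P j) * P k ≠ P j * Polynomial.derivative (P k)

section

variable {I : Ideal (MvPolynomial (Fin (n + 1)) ℂ)} {Q : MvPolynomial (Fin (n + 1)) ℂ}

theorem hol_iff {U : Set ℂ} {f : ℂ → Fin (n + 1) → ℂ} : HolMapP I Q U f ↔ HolMap I Q U f :=
  ⟨fun h => ⟨h.opn, h.con, h.diff, h.ne, h.mem, h.off⟩,
    fun h => ⟨h.opn, h.con, h.diff, h.ne, h.mem, h.off⟩⟩

theorem gm_iff {N : ℕ} {P : Fin (n + 1) → Polynomial ℂ} : GmBdd I Q N P ↔ GmCurve I Q N P :=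
  ⟨fun h => ⟨h.deg, h.mem, h.off, h.nc⟩, fun h => ⟨h.deg, h.mem, h.off, h.nc⟩⟩

theorem curve_iff {f : ℂ → Fin (n + 1) → ℂ} :
    Curve I Q f ↔ HolMap I Q univ f ∧ Nonconstant f := by
  constructor
  · intro h
    exact ⟨⟨isOpen_univ, isPreconnected_univ, (differentiable_pi.2 h.diff).differentiableOn,
      fun z _ => h.ne z, fun z _ => h.mem z, fun z _ => h.off z⟩, h.nc⟩
  · rintro ⟨h, hnc⟩
    exact ⟨differentiable_pi.1 (differentiableOn_univ.1 h.diff), fun z => h.ne z (mem_univ z),
      fun z => h.mem z (mem_univ z), fun z => h.off z (mem_univ z), hnc⟩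

theorem hyp_iff {𝒵 : Set (MvPolynomial (Fin (n + 1)) ℂ)}
    {P : Set ℂ → (ℂ → Fin (n + 1) → ℂ) → Prop} :
    KobayashiModulo I Q 𝒵 P ↔ HyperbolicModulo I Q 𝒵 P := by
  unfold KobayashiModulo HyperbolicModulo
  simp only [hol_iff]

end

theorem part1 (D s r e δ : ℕ) : ∃ N : ℕ, ∀ (E : Set (MvPolynomial (Fin (n + 1)) ℂ))
    (Q : MvPolynomial (Fin (n + 1)) ℂ) (𝒵 : Set (MvPolynomial (Fin (n + 1)) ℂ)),
    (∀ F ∈ E, ∃ a ≤ D, F.IsHomogeneous a) → (∃ a ≤ D, Q.IsHomogeneous a) →
    (∀ G ∈ 𝒵, ∃ a ≤ D, G.IsHomogeneous a) →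
    (∀ P, GmCurve (Ideal.span E) Q N P → ∀ t, ∀ G ∈ 𝒵, eval (fun j => (P j).eval t) G = 0) →
      HyperbolicModulo (Ideal.span E) Q 𝒵 (Complexity Q s r e δ) := by
  obtain ⟨N, hN⟩ := hyp_family n D s r e δ
  exact ⟨N, fun E Q 𝒵 hE hQ h𝒵 h => hyp_iff.1 (hN E Q 𝒵 hE hQ h𝒵 fun G hG P hP t =>
    h P (gm_iff.1 hP) t G hG)⟩

theorem part2 {I : Ideal (MvPolynomial (Fin (n + 1)) ℂ)} {Q : MvPolynomial (Fin (n + 1)) ℂ}
    {q N : ℕ} (hQ : Q.IsHomogeneous q) {𝒵 : Set (MvPolynomial (Fin (n + 1)) ℂ)}
    (h𝒵 : ∀ G ∈ 𝒵, ∃ m, G.IsHomogeneous m)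
    (h : HyperbolicModulo I Q 𝒵 (Complexity Q 1 2 (q * N + N + 1) 0))
    (P : Fin (n + 1) → Polynomial ℂ) (hP : GmCurve I Q N P) (t : ℂ)
    (G : MvPolynomial (Fin (n + 1)) ℂ) (hG : G ∈ 𝒵) : eval (fun j => (P j).eval t) G = 0 := by
  obtain ⟨m, hm⟩ := h𝒵 G hG
  exact gm_of_ent hQ hm (fun f hf hb z => ent_of_hyp (hyp_iff.2 h) hf hb hG z) P (gm_iff.2 hP) t

/-- Let `X` be the complement of `Q = 0` in the closed subset of the projective space of dimension
`n` given by forms `F ∈ E` (or by the forms in the ideal `I`); `X` is projective if `Q = 1`. Let `Z` be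
the closed subset given by the forms in `𝒵`.

(1) For all `n`, `D` and `(s, r, e, δ)` there is `N` such that for all `X` and `Z` given by forms of
degree at most `D`: if the images of all nonconstant morphisms of degree at most `N` from the
multiplicative group to `X` are contained in `Z`, then `X` is hyperbolic modulo `Z` for the maps of
complexity at most `(s, r, e, δ)`.

(2) If `X` is hyperbolic modulo `Z` for the maps of complexity at most `(1, 2, q N + N + 1, 0)`,
where `q` is the degree of `Q`, then the images of all nonconstant morphisms of degree at most `N`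
from the multiplicative group to `X` are contained in `Z`.

(3) Hence the following are equivalent: the images of all nonconstant morphisms from the
multiplicative group to `X` are contained in `Z`; all nonconstant entire curves of bounded complexity
in `X` are contained in `Z`; for all `(s, r, e, δ)` the variety `X` is hyperbolic modulo `Z` for the
maps of complexity at most `(s, r, e, δ)`. All this holds if all nonconstant entire curves in `X`
are contained in `Z`.

(4) Let `X` be irreducible, with the prime ideal `I`. The following are equivalent: `X` is not covered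
by images of the multiplicative group; for all `(s, r, e, δ)` the nonconstant entire curves of
complexity at most `(s, r, e, δ)` in `X` are contained in one proper closed subset; for all
`(s, r, e, δ)` there is a proper closed subset `G = 0` such that `X` is hyperbolic modulo this subset
for the maps of complexity at most `(s, r, e, δ)`.

(5) The properties in (4) hold if all nonconstant entire curves in `X` are contained in one proper
closed subset; if `X` is hyperbolic modulo a proper closed subset, for all holomorphic maps; if `X` is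
of log general type; and, for projective `X`, if `X` is of general type (here `K` is the function
field, `y` the generic point and `w` the dimension of `X`). -/
theorem result (n : ℕ) :
    (∀ D s r e δ : ℕ, ∃ N : ℕ, ∀ (E : Set (MvPolynomial (Fin (n + 1)) ℂ))
      (Q : MvPolynomial (Fin (n + 1)) ℂ) (𝒵 : Set (MvPolynomial (Fin (n + 1)) ℂ)),
      (∀ F ∈ E, ∃ a ≤ D, F.IsHomogeneous a) → (∃ a ≤ D, Q.IsHomogeneous a) →
      (∀ G ∈ 𝒵, ∃ a ≤ D, G.IsHomogeneous a) →
      (∀ P, GmCurve (Ideal.span E) Q N P → ∀ t, ∀ G ∈ 𝒵, eval (fun j => (P j).eval t) G = 0) →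
        HyperbolicModulo (Ideal.span E) Q 𝒵 (Complexity Q s r e δ)) ∧
    (∀ (I : Ideal (MvPolynomial (Fin (n + 1)) ℂ)) (Q : MvPolynomial (Fin (n + 1)) ℂ) (q : ℕ)
      (𝒵 : Set (MvPolynomial (Fin (n + 1)) ℂ)) (N : ℕ), Q.IsHomogeneous q →
      (∀ G ∈ 𝒵, ∃ m, G.IsHomogeneous m) →
      HyperbolicModulo I Q 𝒵 (Complexity Q 1 2 (q * N + N + 1) 0) →
        ∀ P, GmCurve I Q N P → ∀ t, ∀ G ∈ 𝒵, eval (fun j => (P j).eval t) G = 0) ∧
    (∀ (D : ℕ) (E : Set (MvPolynomial (Fin (n + 1)) ℂ))
      (Q : MvPolynomial (Fin (n + 1)) ℂ) (𝒵 : Set (MvPolynomial (Fin (n + 1)) ℂ)),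
      (∀ F ∈ E, ∃ a ≤ D, F.IsHomogeneous a) → (∃ a ≤ D, Q.IsHomogeneous a) →
      (∀ G ∈ 𝒵, ∃ a ≤ D, G.IsHomogeneous a) →
      List.TFAE [∀ N P, GmCurve (Ideal.span E) Q N P →
          ∀ t, ∀ G ∈ 𝒵, eval (fun j => (P j).eval t) G = 0,
        ∀ (s r e δ : ℕ) (f : ℂ → Fin (n + 1) → ℂ), HolMap (Ideal.span E) Q univ f →
          Nonconstant f → Complexity Q s r e δ univ f → ∀ z, ∀ G ∈ 𝒵, eval (f z) G = 0,
        ∀ s r e δ : ℕ, HyperbolicModulo (Ideal.span E) Q 𝒵 (Complexity Q s r e δ)] ∧
      ((∀ f, HolMap (Ideal.span E) Q univ f → Nonconstant f → ∀ z, ∀ G ∈ 𝒵, eval (f z) G = 0) →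
        ∀ s r e δ : ℕ, HyperbolicModulo (Ideal.span E) Q 𝒵 (Complexity Q s r e δ))) ∧
    ∀ (I : Ideal (MvPolynomial (Fin (n + 1)) ℂ)) (Q : MvPolynomial (Fin (n + 1)) ℂ) (q : ℕ),
      I.IsPrime → Q.IsHomogeneous q →
      List.TFAE [¬ GmCovered I Q,
        ∀ s r e δ : ℕ, ∃ G : MvPolynomial (Fin (n + 1)) ℂ, (∃ m, G.IsHomogeneous m) ∧ G ∉ I ∧
          ∀ f, HolMap I Q univ f → Nonconstant f → Complexity Q s r e δ univ f →
            ∀ z, eval (f z) G = 0,
        ∀ s r e δ : ℕ, ∃ G : MvPolynomial (Fin (n + 1)) ℂ, (∃ m, G.IsHomogeneous m) ∧ G ∉ I ∧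
          HyperbolicModulo I Q {G} (Complexity Q s r e δ)] ∧
      ((∃ G : MvPolynomial (Fin (n + 1)) ℂ, (∃ m, G.IsHomogeneous m) ∧ G ∉ I ∧
        ∀ f, HolMap I Q univ f → Nonconstant f → ∀ z, eval (f z) G = 0) → ¬ GmCovered I Q) ∧
      ((∃ G : MvPolynomial (Fin (n + 1)) ℂ, (∃ m, G.IsHomogeneous m) ∧ G ∉ I ∧
        HyperbolicModulo I Q {G} fun _ _ => True) → ¬ GmCovered I Q) ∧
      ∀ (K : Type) [Field K] [Algebra ℂ K] (w : ℕ) (y : Fin (n + 1) → K),
        (FunField I Q K w y →
          Pool.Agent.W602.GT.LogGeneralType ℂ K w (Pool.Agent.W603.GR.OffQ Q q y) →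
            ¬ GmCovered I Q) ∧
        (FunField I 1 K w y → GeneralType ℂ K w → ¬ GmCovered I 1) := by
  refine ⟨fun D s r e δ => part1 D s r e δ,
    fun I Q q 𝒵 N hQ h𝒵 h P hP t G hG => part2 hQ h𝒵 h P hP t G hG,
    fun D E Q 𝒵 hE hQ h𝒵 => ?_, fun I Q q hI hQ => ?_⟩
  · have h𝒵' : ∀ G ∈ 𝒵, ∃ m, G.IsHomogeneous m := fun G hG => by
      obtain ⟨a, -, ha⟩ := h𝒵 G hG
      exact ⟨a, ha⟩
    obtain ⟨q, hqD, hQq⟩ := hQ
    have h13 : (∀ N P, GmCurve (Ideal.span E) Q N P →
        ∀ t, ∀ G ∈ 𝒵, eval (fun j => (P j).eval t) G = 0) →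
        ∀ s r e δ : ℕ, HyperbolicModulo (Ideal.span E) Q 𝒵 (Complexity Q s r e δ) := by
      intro h s r e δ
      obtain ⟨N, hN⟩ := part1 (n := n) D s r e δ
      exact hN E Q 𝒵 hE ⟨q, hqD, hQq⟩ h𝒵 (h N)
    have h21 : (∀ (s r e δ : ℕ) (f : ℂ → Fin (n + 1) → ℂ), HolMap (Ideal.span E) Q univ f →
        Nonconstant f → Complexity Q s r e δ univ f → ∀ z, ∀ G ∈ 𝒵, eval (f z) G = 0) →
        ∀ N P, GmCurve (Ideal.span E) Q N P →
          ∀ t, ∀ G ∈ 𝒵, eval (fun j => (P j).eval t) G = 0 := by
      intro h N P hP t G hG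
      obtain ⟨m, hm⟩ := h𝒵' G hG
      refine gm_of_ent hQq hm (fun f hf hb z => ?_) P (gm_iff.2 hP) t
      exact h 1 2 _ 0 f (curve_iff.1 hf).1 (curve_iff.1 hf).2 hb z G hG
    refine ⟨?_, fun h => h13 (h21 fun s r e δ f hf hn _ => h f hf hn)⟩
    tfae_have 1 → 3 := h13
    tfae_have 2 → 1 := h21
    tfae_have 3 → 2 := fun h s r e δ f hf hn hc z G hG =>
      ent_of_hyp (hyp_iff.2 (h s r e δ)) (curve_iff.2 ⟨hf, hn⟩) hc hG z
    tfae_finish
  · have h6 := six hI hQ
    have h12 : (¬ GmCovered I Q) ↔ GmThin I Q := h6.out 0 1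
    have h24 : GmThin I Q ↔ EntireThin I Q := h6.out 1 3
    have h26 : GmThin I Q ↔ ArcThin I Q := h6.out 1 5
    have e3 : EntireThin I Q ↔ ∀ s r e δ : ℕ, ∃ G : MvPolynomial (Fin (n + 1)) ℂ,
        (∃ m, G.IsHomogeneous m) ∧ G ∉ I ∧ ∀ f, HolMap I Q univ f → Nonconstant f →
          Complexity Q s r e δ univ f → ∀ z, eval (f z) G = 0 := by
      constructor
      · intro h s r e δ
        obtain ⟨G, hG, hGI, hall⟩ := h s r e δ
        exact ⟨G, hG, hGI, fun f hf hn hc z => hall f (curve_iff.2 ⟨hf, hn⟩) hc z⟩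
      · intro h s r e δ
        obtain ⟨G, hG, hGI, hall⟩ := h s r e δ
        exact ⟨G, hG, hGI, fun f hf hc z => hall f (curve_iff.1 hf).1 (curve_iff.1 hf).2 hc z⟩
    have h23 : (∀ s r e δ : ℕ, ∃ G : MvPolynomial (Fin (n + 1)) ℂ,
        (∃ m, G.IsHomogeneous m) ∧ G ∉ I ∧ HyperbolicModulo I Q {G} (Complexity Q s r e δ)) ↔
        GmThin I Q := by
      constructor
      · intro h N
        obtain ⟨G, ⟨m, hm⟩, hGI, hall⟩ := h 1 2 (q * N + N + 1) 0
        exact ⟨G, ⟨m, hm⟩, hGI, fun P hP t => part2 hQ (by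
          rintro _ rfl
          exact ⟨m, hm⟩) hall P (gm_iff.1 hP) t G rfl⟩
      · intro h s r e δ
        obtain ⟨G1, m0, ⟨m1, hm1⟩, hG1, harc⟩ := h26.1 h s r e δ
        obtain ⟨G2, ⟨m2, hm2⟩, hG2, hgm⟩ := h (NP n m0)
        refine ⟨G1 * G2, ⟨_, hm1.mul hm2⟩, fun h1 => ?_, hyp_iff.1 ?_⟩
        · rcases hI.mem_or_mem h1 with h2 | h2
          · exact hG1 h2
          · exact hG2 h2
        · refine hyp_of_arcs (m0 := m0) hQ ?_ ?_ ?_
          · rintro _ rfl
            exact ⟨_, hm1.mul hm2⟩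
          · rintro _ rfl U h hA
            rcases harc U h hA with h1 | h1
            · left
              intro z hz
              rw [map_mul, h1 z hz, zero_mul]
            · exact Or.inr h1
          · rintro _ rfl P hP t
            rw [map_mul, hgm P hP t, mul_zero]
    refine ⟨?_, ?_, ?_, fun K _ _ w y => ⟨fun hy hL => ?_, fun hy hL => ?_⟩⟩
    · rw [← e3]
      tfae_have 1 ↔ 2 := h12.trans h24
      tfae_have 3 ↔ 1 := h23.trans h12.symm
      tfae_finish
    · rintro ⟨G, hG, hGI, hall⟩
      rw [h12, h24, e3]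
      exact fun s r e δ => ⟨G, hG, hGI, fun f hf hn _ => hall f hf hn⟩
    · rintro ⟨G, hG, hGI, hall⟩
      rw [h12, h24, e3]
      exact fun s r e δ => ⟨G, hG, hGI, fun f hf hn _ z =>
        ent_of_hyp (hyp_iff.2 hall) (curve_iff.2 ⟨hf, hn⟩) trivial rfl z⟩
    · exact Pool.Agent.V1153.UG.not_ruled_of_lgt hQ hy hL
    · intro hc
      obtain ⟨N, hN, ω, hω, h0⟩ := Pool.Agent.Y377.IL.form_of_gt hL
      exact h0 (Pool.Agent.U178.GG.pluri_of_ruled hy hc N hN ω hω)

end Pool.Agent.Results.MP_8d161d_ag.PseudoKobayashi
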