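import Mathlib
import Pool.Agent.U707.SL.Curve

set_option autoImplicit false

/-!
# One proper closed subset for all entire curves of bounded complexity

Let `k` be a field with an embedding `σ₀` in `ℂ` (for example `k = ℂ` or a number field), and `X` an
integral closed subvariety of projective `n`-space over `k`, given by the forms `F ∈ FF` (the ideal
generated by `FF` is prime).

**Complexity.**  An entire curve with homogeneous coordinates `x(z)` has complexity `(s, r, e)`
(`CurveVec s r e x`) if there are entire functions `X_1, …, X_s` with values in the invertible
complex `r × r` matrices such that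

* `X_l' = M_l X_l`, where the entries of `M_l` are values of polynomials with complex coefficients,
  of degree at most `e` in each variable, at the entries of `X_i`, `X_i⁻¹`, `i < l`, and
* the homogeneous coordinates of `x(z)` are values of such polynomials at the entries of all
  `X_i`, `X_i⁻¹`, `i ≤ s`.

So `X_1 = exp (z M_1) C`, the coefficients of the equation for `X_2` are exponential polynomials,
`X_2` can contain iterated exponentials, Airy and Mathieu functions, and so on.

**Theorem.** The following are equivalent:

* `X` is not uniruled (for instance, `X` is of general type and of positive dimension);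
* for each complexity `(s, r, e)` there is ONE proper closed subset `Z = X ∩ {G = 0}` of `X`,
  defined over `k`, which contains, for ALL embeddings `σ` of `k` in `ℂ`, all nonconstant entire
  curves in `X_σ` of complexity `(s, r, e)`;
* for each `e` there is one proper closed subset `Z` of `X`, defined over `k`, which contains
  all nonconstant rational curves in `X_{σ₀}` given by polynomials of degree at most `e`.

So for entire curves of any given complexity the Green-Griffiths-Lang conjecture holds for all
projective varieties of general type, with `Z` defined over the field of definition of `X`, and the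
converse holds for this class. The hand-in `OneDeltaForCurves` for MP_c69980_ag is the analogue for
affine varieties and curves on the complement of a divisor.

Method: through all points outside a countable set of parameters of an entire curve of complexity
`(s, r, e)` in `X` pass rational curves in `X` of degree at most `D n d s r e` (library R393, helper393,
based on Y377), and on a variety which is not uniruled the rational curves of bounded degree lie in
one proper closed subset, which is defined over `k` (library H533R3, TH717).
-/

namespace Pool.Agent.Results.MP_8d161d_ag.StrongIteratedCurves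

open MvPolynomial Pool.Agent.R393.SC Pool.Agent.R393.UD Pool.Agent.U707.SL
open Pool.Agent.H533R3.SL (Uniruled)

/-- **One closed subset for all entire curves of bounded complexity.** -/
theorem result (k : Type) [Field k] (σ₀ : k →+* ℂ) (n : ℕ)
    (FF : Finset (MvPolynomial (Fin (n + 1)) k)) (hhom : ∀ F ∈ FF, ∃ e, F.IsHomogeneous e)
    (hprime : (Ideal.span (FF : Set (MvPolynomial (Fin (n + 1)) k))).IsPrime) :
    List.TFAE [
      ¬ Uniruled (Ideal.span (FF : Set (MvPolynomial (Fin (n + 1)) k))),
      ∀ s r e : ℕ, ∃ G : MvPolynomial (Fin (n + 1)) k, (∃ c, G.IsHomogeneous c) ∧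
        G ∉ Ideal.span (FF : Set (MvPolynomial (Fin (n + 1)) k)) ∧
        ∀ (σ : k →+* ℂ) (x : ℂ → Fin (n + 1) → ℂ), CurveVec s r e x →
          (∀ z, ∀ F ∈ FF, eval₂ σ (x z) F = 0) →
          (∃ z w i j, x z i * x w j ≠ x z j * x w i) → ∀ z, eval₂ σ (x z) G = 0,
      ∀ e : ℕ, ∃ G : MvPolynomial (Fin (n + 1)) k, (∃ c, G.IsHomogeneous c) ∧
        G ∉ Ideal.span (FF : Set (MvPolynomial (Fin (n + 1)) k)) ∧
        ∀ q : Fin (n + 1) → Polynomial ℂ, (∀ j, (q j).natDegree ≤ e) →
          (∀ z, ∀ F ∈ FF, eval₂ σ₀ (fun j => (q j).eval z) F = 0) →
          (∃ z w i j, (q i).eval z * (q j).eval w ≠ (q j).eval z * (q i).eval w) →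
          ∀ z, eval₂ σ₀ (fun j => (q j).eval z) G = 0] := by
  tfae_have 1 → 2 := fun hnu s r e => strong_entire FF hhom hprime hnu s r e
  tfae_have 2 → 3 := by
    intro h e
    obtain ⟨G, hG1, hG2, hG3⟩ := h 1 2 e
    exact ⟨G, hG1, hG2, fun q hq hX hnc => hG3 σ₀ _ (curveVec_poly' q hq) hX hnc⟩
  tfae_have 3 → 1 := by
    intro h hu
    obtain ⟨e, he⟩ := strong_entire_converse σ₀ FF hu
    obtain ⟨G, hG1, hG2, hG3⟩ := h e
    obtain ⟨q, h1, h2, h3, z, h4⟩ := he G hG1 hG2
    exact h4 (hG3 q h1 h2 h3 z)
  tfae_finish

end Pool.Agent.Results.MP_8d161d_ag.StrongIteratedCurves
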